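import Mathlib
import Pool.Agent.Lib.MP_45f08a_gt.Lattice

/-!
# MP_45f08a : the arithmetic of the 6-manifold `X = S × S²`, `S` the Fermat sextic surface

`H²(S; ℤ)` is an even unimodular lattice of signature `(21, 85)`, so it is `U ⊕ U ⊕ M` with an
even lattice `M`.  The classes used are: `H` the hyperplane class (`H² = 6`, `K_S = 2 H`), `l` a
line of `S` (`H · l = 1`, `l² = -4`) and `p` a vector of the transcendental lattice (`p² > 0`,
`p · H = p · l = 0`).  `H²(X; ℤ) = H²(S; ℤ) ⊕ ℤ f`, and `c₁(X) = -2 H + 2 f`.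
-/

namespace Pool.Agent.Results.MP_45f08a_gt.SexticTimesSphere

open MP45f08a

/-- The cubic form of `X = S × S²` on `H²(X; ℤ) = H²(S; ℤ) ⊕ ℤ f`:
`(x + s f) (y + t f) (z + u f) = s (y · z) + t (x · z) + u (x · y)`. -/
def mu {M : Type} [AddCommGroup M] (q : QuadraticForm ℤ M) (x y z : Lat M × ℤ) : ℤ :=
  x.2 * B q y.1 z.1 + y.2 * B q x.1 z.1 + z.2 * B q x.1 y.1

theorem exists_c (m : ℤ) (hm : 1 ≤ m) : ∃ c : ℤ, 1 ≤ c ∧ m ≤ c ^ 2 ∧ c ^ 2 ≤ 4 * m := by
  obtain ⟨n, rfl⟩ := Int.eq_ofNat_of_zero_le (by omega : 0 ≤ m)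
  have h1 := Nat.sqrt_le' n
  have h2 := Nat.lt_succ_sqrt' n
  have h3 : 1 ≤ Nat.sqrt n := Nat.le_sqrt'.2 (by simpa using hm)
  refine ⟨(Nat.sqrt n + 1 : ℕ), ?_, ?_, ?_⟩
  · push_cast; omega
  · rw [Nat.succ_eq_add_one] at h2
    exact_mod_cast h2.le
  · have : (Nat.sqrt n + 1) ^ 2 ≤ 4 * n := by nlinarith
    exact_mod_cast this

/-- the main inequality -/
theorem ineq (a w : ℤ) (h1 : 3 * w ≤ a) (h2 : 5 * a ≤ 62 * w) (hw : 50 ≤ w) :
    0 < 54 * (a + w) ^ 2 + 18 * (a + w) - 38 - 72 * (a - w) ^ 2 - 24 * (a - w) := by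
  have e1 : 0 ≤ (a - 3 * w) * (62 * w - 5 * a) := mul_nonneg (by linarith) (by linarith)
  have e2 : 0 ≤ w * (62 * w - 5 * a) := mul_nonneg (by linarith) (by linarith)
  have e3 : 50 * w ≤ w * w := by nlinarith
  nlinarith

/-- Let `L = U ⊕ U ⊕ M` and let `H, l, p ∈ L` have the intersection numbers of the hyperplane
class, a line and a transcendental class of the Fermat sextic surface `S`.  On
`L ⊕ ℤ f = H²(S × S²; ℤ)` there is an automorphism `F` that preserves the cubic form and the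
coefficient of `f` and maps the class `N H + l + s f` to `Ω = N' H + l + k p + s f`, and for all
large `s` the class `Ω` and `c = -2 H + 2 f` violate the inequality
`(c c Ω) (Ω Ω Ω) ≤ (c Ω Ω)²` of the Hodge index theorem. -/
theorem result (M : Type) [AddCommGroup M] (q : QuadraticForm ℤ M) (H l p : Lat M)
    (hHH : B q H H = 6) (hHl : B q H l = 1) (hll : B q l l = -4)
    (hpp : 0 < B q p p) (hpH : B q p H = 0) (hpl : B q p l = 0) :
    ∃ N N' k : ℤ, 5 ≤ N ∧ 5 ≤ N' ∧
      (∃ F : Lat M × ℤ ≃+ Lat M × ℤ, (∀ x y z, mu q (F x) (F y) (F z) = mu q x y z) ∧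
        (∀ x, (F x).2 = x.2) ∧ ∀ s : ℤ, F (N • H + l, s) = (N' • H + l + k • p, s)) ∧
      ∃ s₀ : ℤ, ∀ s ≥ s₀,
        mu q (-((2 : ℤ) • H), 2) (N' • H + l + k • p, s) (N' • H + l + k • p, s) ^ 2 <
          mu q (-((2 : ℤ) • H), 2) (-((2 : ℤ) • H), 2) (N' • H + l + k • p, s) *
          mu q (N' • H + l + k • p, s) (N' • H + l + k • p, s) (N' • H + l + k • p, s) := by
  have hlH : B q l H = 1 := by rw [B_comm]; exact hHl
  have hHp : B q H p = 0 := by rw [B_comm]; exact hpH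
  have hlp : B q l p = 0 := by rw [B_comm]; exact hpl
  have hQp := B_self q p
  set m := Q q p with hm
  have hm1 : 1 ≤ m := by omega
  obtain ⟨c, hc, hc1, hc2⟩ := exists_c m hm1
  set n := 30 * c ^ 2 + 2 * c + 10 * m with hn
  set n' := 30 * c ^ 2 + 2 * c - 10 * m with hn'
  set k := 10 * (30 * c + 1) with hk
  -- squares and pairings
  have hα : ∀ x : ℤ, ∀ y : ℤ, B q (x • H + l + y • p) (x • H + l + y • p) =
      6 * x ^ 2 + 2 * x - 4 + 2 * m * y ^ 2 := by
    intro x y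
    simp only [B_add_left, B_add_right, B_smul_left, B_smul_right, hHH, hHl, hll, hlH, hpH, hHp,
      hpl, hlp, hQp]
    ring
  have hβ : ∀ x : ℤ, B q (x • H + l) (x • H + l) = 6 * x ^ 2 + 2 * x - 4 := by
    intro x
    simp only [B_add_left, B_add_right, B_smul_left, B_smul_right, hHH, hHl, hll, hlH]
    ring
  have hKα : ∀ x : ℤ, ∀ y : ℤ, B q H (x • H + l + y • p) = 6 * x + 1 := by
    intro x y
    simp only [B_add_right, B_smul_right, hHH, hHl, hHp]
    ring
  have huα : ∀ x : ℤ, ∀ y : ℤ, Uni q ((5 * x) • H + l + y • p) := by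
    intro x y
    refine ⟨(11 * x ^ 2 - 7) • H + (-66 * x ^ 2 - 55 * x - 2) • l, ?_⟩
    simp only [B_add_left, B_add_right, B_smul_left, B_smul_right, hHH, hHl, hll, hlH, hpH, hpl]
    ring
  have huβ : ∀ x : ℤ, Uni q ((5 * x) • H + l) := by
    intro x
    refine ⟨(11 * x ^ 2 - 7) • H + (-66 * x ^ 2 - 55 * x - 2) • l, ?_⟩
    simp only [B_add_left, B_add_right, B_smul_left, B_smul_right, hHH, hHl, hll, hlH]
    ring
  have hn5 : 5 ≤ 5 * n := by nlinarith
  have hn5' : 5 ≤ 5 * n' := by nlinarith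
  refine ⟨5 * n, 5 * n', k, hn5, hn5', ?_, ?_⟩
  · -- the isometry
    have hQ : Q q ((5 * n) • H + l) = Q q ((5 * n') • H + l + k • p) := by
      have h1 := B_self q ((5 * n) • H + l)
      have h2 := B_self q ((5 * n') • H + l + k • p)
      rw [hβ] at h1
      rw [hα] at h2
      have h3 : 6 * (5 * n) ^ 2 + 2 * (5 * n) - 4 =
          6 * (5 * n') ^ 2 + 2 * (5 * n') - 4 + 2 * m * k ^ 2 := by
        rw [hn, hn', hk]; ring
      linarith
    obtain ⟨T, hT, hTx⟩ := transitive (huβ n) (huα n' k) hQ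
    refine ⟨AddEquiv.prodCongr T (AddEquiv.refl ℤ), ?_, fun x => rfl, fun s => ?_⟩
    · intro x y z
      change x.2 * B q (T y.1) (T z.1) + y.2 * B q (T x.1) (T z.1) +
        z.2 * B q (T x.1) (T y.1) = mu q x y z
      rw [hT.B, hT.B, hT.B]
      rfl
    · change (T ((5 * n) • H + l), s) = _
      rw [hTx]
  · -- the inequality
    set α := (5 * n') • H + l + k • p with hαd
    set A := B q α α with hA
    have hA1 : A = 6 * (5 * n) ^ 2 + 2 * (5 * n) - 4 := by
      rw [hA, hαd, hα, hn, hn', hk]; ring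
    set h := B q H α with hh
    have hh1 : h = 6 * (5 * n') + 1 := by rw [hh, hαd, hKα]
    have hF : 0 < 72 * A - 16 * h ^ 2 := by
      have := ineq (150 * c ^ 2 + 10 * c) (50 * m) (by nlinarith) (by nlinarith) (by linarith)
      rw [hA1, hh1, hn, hn']
      nlinarith
    have hApos : 0 < A := by rw [hA1]; nlinarith
    have hhpos : 0 < h := by rw [hh1]; linarith
    refine ⟨4 * A ^ 2 + 8 * h * A + 1, ?_⟩
    intro s hs
    have neg_left : ∀ x : Lat M, B q (-((2 : ℤ) • H)) x = -2 * B q H x := by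
      intro x
      have : -((2 : ℤ) • H) = (-2 : ℤ) • H := by rw [neg_smul]
      rw [this, B_smul_left]
    have neg_right : ∀ x : Lat M, B q x (-((2 : ℤ) • H)) = -2 * B q x H := by
      intro x
      rw [B_comm, neg_left, B_comm]
    simp only [mu, neg_left, neg_right, hHH, ← hA, ← hh]
    have hs1 : 1 ≤ s := by nlinarith
    have e1 : (4 * A ^ 2 + 8 * h * A + 1) * s ≤ s * s := mul_le_mul_of_nonneg_right hs (by linarith)
    have e2 : 4 * A ^ 2 * 1 ≤ 4 * A ^ 2 * s := mul_le_mul_of_nonneg_left hs1 (by positivity)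
    have e3 : s * s * 1 ≤ s * s * (72 * A - 16 * h ^ 2) :=
      mul_le_mul_of_nonneg_left hF (by positivity)
    have e4 : 0 < s * s * (72 * A - 16 * h ^ 2) - 8 * s * h * A - 4 * A ^ 2 := by linarith
    rw [← sub_pos]
    convert e4 using 1
    ring

end Pool.Agent.Results.MP_45f08a_gt.SexticTimesSphere
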